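import Pool.Agent.Q191.QGraphSame

set_option autoImplicit false

open Set Q191.QGraph Q191.QGraph.MGraph

namespace Pool.Agent.Results.MP_630a53_an.DoubledTriangle

/-- The equilateral triangle with all edges doubled: the edges `(i, 0)` and `(i, 1)` join the
vertices `i` and `i + 1`, all edges have length one. -/
def tri : MGraph where
  V := Fin 3
  E := Fin 3 × Fin 2
  src := fun e => e.1
  dst := fun e => e.1 + 1
  len := fun _ => 1
  len_pos := fun _ => one_pos

lemma tri_connected : tri.Connected := by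
  refine ⟨⟨(0 : Fin 3)⟩, ?_⟩
  have h : ∀ i : Fin 3, Relation.EqvGen (tri.Adj univ) i (i + 1) := fun i =>
    Relation.EqvGen.rel _ _ ⟨(i, (0 : Fin 2)), trivial, rfl, rfl⟩
  have h0 : ∀ i : Fin 3, Relation.EqvGen (tri.Adj univ) (0 : Fin 3) i := by
    intro i
    have h01 := h 0
    have h12 := h 1
    fin_cases i
    · exact Relation.EqvGen.refl _
    · exact h01
    · exact Relation.EqvGen.trans _ _ _ h01 h12
  intro v w
  exact Relation.EqvGen.trans _ _ _ (Relation.EqvGen.symm _ _ (h0 v)) (h0 w)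

lemma cnt_tri : tri.cnt = 3 := by
  show (∑ v : Fin 3, if ((∑ e : Fin 3 × Fin 2, if e.1 = v then 1 else 0)
    + (∑ e : Fin 3 × Fin 2, if e.1 + 1 = v then 1 else 0)) = 4 then 1 else 0) = 3
  decide

/-- the position of a vertex -/
def nn (i : Fin 3) : ℝ := (i.val : ℝ)

/-- the vertex values of the rotating eigenfunctions -/
noncomputable def val (φ : ℝ) (v : tri.V) : ℝ :=
  Real.cos (2 * Real.pi / 3 * nn v + φ)

/-- the edge functions of the rotating eigenfunctions -/
noncomputable def fn (φ : ℝ) (e : tri.E) (x : ℝ) : ℝ :=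
  Real.cos (2 * Real.pi / 3 * (nn e.1 + x) + φ)

lemma isEig_fn (φ : ℝ) : tri.IsEig ((2 * Real.pi / 3) ^ 2) (val φ) (fn φ) := by
  set k : ℝ := 2 * Real.pi / 3 with hk
  refine ⟨?_, ?_, fun e x => -(k * Real.sin (k * (nn e.1 + x) + φ)),
    ?_, ?_, ?_⟩
  · intro e
    simp only [fn, val, tri, add_zero]
  · rintro ⟨i, j⟩
    show Real.cos (2 * Real.pi / 3 * (nn i + 1) + φ)
      = Real.cos (2 * Real.pi / 3 * nn ((i : Fin 3) + 1) + φ)
    have hv : ∀ i : Fin 3, i = 0 ∨ i = 1 ∨ i = 2 := by decide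
    rcases hv i with rfl | rfl | rfl
    · have : nn ((0 : Fin 3) + 1) = nn (0 : Fin 3) + 1 := by simp [nn]
      rw [this]
    · have : nn ((1 : Fin 3) + 1) = nn (1 : Fin 3) + 1 := by
        have h2 : ((1 : Fin 3) + 1) = 2 := by decide
        rw [h2]; simp [nn]; norm_num
      rw [this]
    · have h3 : ((2 : Fin 3) + 1) = 0 := by decide
      have : (2 * Real.pi / 3 * (nn (2 : Fin 3) + 1) + φ : ℝ)
          = (2 * Real.pi / 3 * nn ((2 : Fin 3) + 1) + φ) + 2 * Real.pi := by
        rw [h3]; simp [nn]; ring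
      rw [this, Real.cos_add_two_pi]
  · intro e x _
    have h := ((((hasDerivAt_id x).const_add (nn e.1)).const_mul k).add_const φ).cos
    refine (h.congr_deriv ?_).hasDerivWithinAt
    simp; ring
  · intro e x _
    have h := (((((hasDerivAt_id x).const_add (nn e.1)).const_mul k).add_const φ).sin.const_mul
      k).neg
    refine (h.congr_deriv ?_).hasDerivWithinAt
    simp [fn]; ring
  · intro (v : Fin 3)
    show (∑ e : Fin 3 × Fin 2, if e.1 = v then
        -(k * Real.sin (k * (nn e.1 + 0) + φ)) else 0)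
      - (∑ e : Fin 3 × Fin 2, if e.1 + 1 = v then
        -(k * Real.sin (k * (nn e.1 + 1) + φ)) else 0) = 0
    rw [Fintype.sum_prod_type, Fintype.sum_prod_type]
    simp only [Fin.sum_univ_two, Fin.sum_univ_three]
    have hper : Real.sin (k * (nn 2 + 1) + φ) = Real.sin (k * (nn 0 + 0) + φ) := by
      have : (k * (nn 2 + 1) + φ : ℝ) = (k * (nn 0 + 0) + φ) + 2 * Real.pi := by
        rw [hk]; simp [nn]; ring
      rw [this, Real.sin_add_two_pi]
    have h1 : Real.sin (k * (nn 0 + 1) + φ) = Real.sin (k * (nn 1 + 0) + φ) := by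
      simp [nn]
    have h2 : Real.sin (k * (nn 1 + 1) + φ) = Real.sin (k * (nn 2 + 0) + φ) := by
      simp [nn]; norm_num
    rw [hper, h1, h2]
    have hv : v = (0 : Fin 3) ∨ v = (1 : Fin 3) ∨ v = (2 : Fin 3) := by
      have : ∀ v : Fin 3, v = 0 ∨ v = 1 ∨ v = 2 := by decide
      exact this v
    have e1 : ((0 : Fin 3) + 1 = (0 : Fin 3)) = False := by decide
    have e2 : ((1 : Fin 3) + 1 = (0 : Fin 3)) = False := by decide
    have e3 : ((2 : Fin 3) + 1 = (0 : Fin 3)) = True := by decide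
    have e4 : ((0 : Fin 3) + 1 = (1 : Fin 3)) = True := by decide
    have e5 : ((1 : Fin 3) + 1 = (1 : Fin 3)) = False := by decide
    have e6 : ((2 : Fin 3) + 1 = (1 : Fin 3)) = False := by decide
    have e7 : ((0 : Fin 3) + 1 = (2 : Fin 3)) = False := by decide
    have e8 : ((1 : Fin 3) + 1 = (2 : Fin 3)) = True := by decide
    have e9 : ((2 : Fin 3) + 1 = (2 : Fin 3)) = False := by decide
    have d1 : ((1 : Fin 3) = (0 : Fin 3)) = False := by decide
    have d2 : ((2 : Fin 3) = (0 : Fin 3)) = False := by decide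
    have d3 : ((0 : Fin 3) = (1 : Fin 3)) = False := by decide
    have d4 : ((2 : Fin 3) = (1 : Fin 3)) = False := by decide
    have d5 : ((0 : Fin 3) = (2 : Fin 3)) = False := by decide
    have d6 : ((1 : Fin 3) = (2 : Fin 3)) = False := by decide
    rcases hv with rfl | rfl | rfl
    · simp only [e1, e2, e3, d1, d2, if_true, if_false]; ring
    · simp only [e4, e5, e6, d3, d4, if_true, if_false]; ring
    · simp only [e7, e8, e9, d5, d6, if_true, if_false]; ring

/-- below `(2 pi / 3) ^ 2` there is no positive eigenvalue -/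
lemma no_small {k : ℝ} (hk0 : 0 < k) (hk1 : k < 2 * Real.pi / 3) :
    ¬ tri.IsEigenvalue (k ^ 2) := by
  rintro ⟨a, u, ⟨h0, h1, w, hu, hw, hK⟩, p, hp⟩
  have hpi := Real.pi_pos
  have hsin : 0 < Real.sin k := Real.sin_pos_of_pos_of_lt_pi hk0 (by linarith)
  have hcos : -(1 / 2) < Real.cos k := by
    have h2 : Real.cos (2 * Real.pi / 3) = -(1 / 2) := by
      have : (2 * Real.pi / 3 : ℝ) = Real.pi - Real.pi / 3 := by ring
      rw [this, Real.cos_pi_sub, Real.cos_pi_div_three]
    rw [← h2]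
    exact Real.cos_lt_cos_of_nonneg_of_le_pi hk0.le (by linarith) hk1
  have hcos1 : Real.cos k < 1 := by
    rw [← Real.cos_zero]
    exact Real.cos_lt_cos_of_nonneg_of_le_pi le_rfl (by linarith) hk0
  have hsc := Real.sin_sq_add_cos_sq k
  have hone : (1 : ℝ) ∈ Icc (0 : ℝ) 1 := ⟨zero_le_one, le_rfl⟩
  have hode : ∀ e : tri.E, ∀ x ∈ Icc (0 : ℝ) 1,
      u e x = u e 0 * Real.cos (k * x) + w e 0 / k * Real.sin (k * x) ∧
      w e x = k * (-(u e 0) * Real.sin (k * x) + w e 0 / k * Real.cos (k * x)) := by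
    intro e x hx
    exact ode hk0.ne' (hu e) (hw e) hx
  have hc : ∀ i : Fin 3, ∀ j : Fin 2, w (i, j) 0 / k * Real.sin k
      = a (i + 1 : Fin 3) - a i * Real.cos k := by
    intro i j
    have e1 := (hode (i, j) 1 hone).1
    have e2 : u (i, j) 1 = a (i + 1 : Fin 3) := h1 (i, j)
    have e3 : u (i, j) 0 = a i := h0 (i, j)
    rw [e2, e3, mul_one] at e1
    linarith
  have hw1 : ∀ i : Fin 3, ∀ j : Fin 2, w (i, j) 1
      = k * (-(a i) * Real.sin k + w (i, j) 0 / k * Real.cos k) := by
    intro i j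
    have e1 := (hode (i, j) 1 hone).2
    have e3 : u (i, j) 0 = a i := h0 (i, j)
    rw [e3, mul_one] at e1
    exact e1
  have hK' : ∀ v : Fin 3, (∑ e : Fin 3 × Fin 2, if e.1 = v then w e 0 else 0)
      - (∑ e : Fin 3 × Fin 2, if e.1 + 1 = v then w e 1 else 0) = 0 := hK
  have hcyc : ∀ v : Fin 3, w (v + 1, 0) 0 + w (v + 1, 1) 0 - (w (v, 0) 1 + w (v, 1) 1) = 0 := by
    intro v
    have h := hK' (v + 1)
    rw [Fintype.sum_prod_type, Fintype.sum_prod_type] at h
    simp only [Fin.sum_univ_two] at h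
    have g1 : (∑ x : Fin 3, ((if x = v + 1 then w (x, 0) 0 else 0)
        + if x = v + 1 then w (x, 1) 0 else 0)) = w (v + 1, 0) 0 + w (v + 1, 1) 0 := by
      rw [Finset.sum_eq_single (v + 1)]
      · simp
      · intro b _ hb; simp [hb]
      · simp
    have g2 : (∑ x : Fin 3, ((if x + 1 = v + 1 then w (x, 0) 1 else 0)
        + if x + 1 = v + 1 then w (x, 1) 1 else 0)) = w (v, 0) 1 + w (v, 1) 1 := by
      rw [Finset.sum_eq_single v]
      · simp
      · intro b _ hb
        have : ¬ (b + 1 = v + 1) := fun h => hb (add_right_cancel h)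
        simp [this]
      · simp
    rw [g1, g2] at h
    exact h
  -- the vertex equations
  have hvert : ∀ v : Fin 3, a (v + 1 + 1 : Fin 3) + a v = 2 * a (v + 1 : Fin 3) * Real.cos k := by
    intro v
    have h := hcyc v
    rw [hw1, hw1] at h
    have c1 := hc (v + 1) 0
    have c2 := hc (v + 1) 1
    have c3 := hc v 0
    have c4 := hc v 1
    have hkk : k ≠ 0 := hk0.ne'
    have h' : w (v + 1, 0) 0 / k + w (v + 1, 1) 0 / k
        - ((-(a v) * Real.sin k + w (v, 0) 0 / k * Real.cos k)
        + (-(a v) * Real.sin k + w (v, 1) 0 / k * Real.cos k)) = 0 := by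
      have : k * (w (v + 1, 0) 0 / k + w (v + 1, 1) 0 / k
        - ((-(a v) * Real.sin k + w (v, 0) 0 / k * Real.cos k)
        + (-(a v) * Real.sin k + w (v, 1) 0 / k * Real.cos k))) = 0 := by
        have e5 : k * (w (v + 1, 0) 0 / k) = w (v + 1, 0) 0 := by field_simp
        have e6 : k * (w (v + 1, 1) 0 / k) = w (v + 1, 1) 0 := by field_simp
        linear_combination h + e5 + e6
      rcases mul_eq_zero.1 this with h0 | h0
      · exact absurd h0 hkk
      · exact h0
    have h'' := congrArg (fun z => z * Real.sin k) h'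
    simp only [zero_mul] at h''
    have key : 2 * (a (v + 1 + 1 : Fin 3) - a (v + 1 : Fin 3) * Real.cos k)
        + 2 * a v * Real.sin k ^ 2 - 2 * (a (v + 1 : Fin 3) - a v * Real.cos k) * Real.cos k = 0 := by
      linear_combination h'' - c1 - c2 + Real.cos k * c3 + Real.cos k * c4
    linear_combination (1 / 2) * key - a v * hsc
  have ha : ∀ v : Fin 3, a v = 0 := by
    have q0 := hvert 0
    have q1 := hvert 1
    have q2 := hvert 2
    have r0 : ((0 : Fin 3) + 1) = 1 := by decide
    have r1 : ((1 : Fin 3) + 1) = 2 := by decide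
    have r2 : ((2 : Fin 3) + 1) = 0 := by decide
    simp only [r0, r1, r2] at q0 q1 q2
    set A := a (0 : Fin 3)
    set B := a (1 : Fin 3)
    set C := a (2 : Fin 3)
    have hpos : 0 < 1 + 2 * Real.cos k := by linarith
    have s1 : (1 + 2 * Real.cos k) * (A - B) = 0 := by linear_combination q0 - q2
    have s2 : (1 + 2 * Real.cos k) * (B - C) = 0 := by linear_combination q1 - q0
    have t1 : A = B := by
      rcases mul_eq_zero.1 s1 with h | h
      · exact absurd h hpos.ne'
      · linarith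
    have t2 : B = C := by
      rcases mul_eq_zero.1 s2 with h | h
      · exact absurd h hpos.ne'
      · linarith
    have t3 : (1 - Real.cos k) * A = 0 := by
      rw [← t2, ← t1] at q0
      linear_combination (1 / 2) * q0
    have t4 : A = 0 := by
      rcases mul_eq_zero.1 t3 with h | h
      · linarith
      · exact h
    have : ∀ v : Fin 3, v = 0 ∨ v = 1 ∨ v = 2 := by decide
    intro v
    rcases this v with rfl | rfl | rfl
    · exact t4
    · show B = 0
      rw [← t1]; exact t4
    · show C = 0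
      rw [← t2, ← t1]; exact t4
  have hu0 : ∀ e : tri.E, ∀ x ∈ Icc (0 : ℝ) 1, u e x = 0 := by
    rintro ⟨i, j⟩ x hx
    have e1 := (hode (i, j) x hx).1
    have e2 := hc i j
    rw [ha, ha] at e2
    have e3 : w (i, j) 0 / k = 0 := by
      have : w (i, j) 0 / k * Real.sin k = 0 := by linarith
      rcases mul_eq_zero.1 this with h | h
      · exact h
      · exact absurd h hsin.ne'
    have e4 : u (i, j) 0 = a i := h0 (i, j)
    rw [e1, e3, e4, ha]; ring
  apply hp
  rcases p with v | ⟨e, x, hx⟩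
  · exact ha v
  · exact hu0 e x ⟨hx.1.le, hx.2.le⟩

lemma isMuTwo : tri.IsMuTwo ((2 * Real.pi / 3) ^ 2) := by
  have hpi := Real.pi_pos
  refine ⟨by positivity, ⟨val 0, fn 0, isEig_fn 0, Sum.inl (0 : Fin 3), ?_⟩, ?_⟩
  · show Real.cos (2 * Real.pi / 3 * nn 0 + 0) ≠ 0
    simp [nn]
  · intro nu hnu h
    by_contra hcon
    push Not at hcon
    have hs : Real.sqrt nu ^ 2 = nu := Real.sq_sqrt hnu.le
    rw [← hs] at h hcon
    exact no_small (Real.sqrt_pos.2 hnu)
      (lt_of_pow_lt_pow_left₀ 2 (by positivity) hcon) h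

/-- There is a compact graph with `M(Γ) = Γ` which is neither an equilateral pumpkin nor an
equilateral complete graph: the equilateral triangle with all edges doubled. -/
theorem result : ∃ G : MGraph, G.Connected ∧ G.HotSpots = univ ∧
    (∀ (k : ℕ) (l : ℝ) (hl : 0 < l), ¬ Same G (pumpkin k l hl)) ∧
    (∀ (n : ℕ) (l : ℝ) (hl : 0 < l), ¬ Same G (complete n l hl)) := by
  refine ⟨tri, tri_connected, ?_, ?_, ?_⟩
  · rw [eq_univ_iff_forall]
    intro p
    have hle : ∀ (φ : ℝ) (q : tri.Pt), tri.ev (val φ) (fn φ) q ≤ 1 := by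
      intro φ q
      rcases q with v | ⟨e, x⟩
      · exact Real.cos_le_one _
      · exact Real.cos_le_one _
    have hex : ∃ φ : ℝ, tri.ev (val φ) (fn φ) p = 1 := by
      rcases p with v | ⟨e, x⟩
      · refine ⟨-(2 * Real.pi / 3 * nn v), ?_⟩
        show Real.cos _ = 1
        rw [add_neg_cancel, Real.cos_zero]
      · refine ⟨-(2 * Real.pi / 3 * (nn e.1 + (x : ℝ))), ?_⟩
        show Real.cos _ = 1
        rw [add_neg_cancel, Real.cos_zero]
    obtain ⟨φ, hφ⟩ := hex
    refine ⟨val φ, fn φ, ⟨_, isMuTwo, isEig_fn φ, p, by rw [hφ]; exact one_ne_zero⟩, Or.inl ?_⟩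
    intro q
    rw [hφ]
    exact hle φ q
  · intro k l hl h
    have := cnt_same h
    rw [cnt_tri] at this
    exact cnt_pumpkin k l hl this
  · intro n l hl h
    have := cnt_same h
    rw [cnt_tri] at this
    exact cnt_complete n l hl this

end Pool.Agent.Results.MP_630a53_an.DoubledTriangle
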